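import Pool.Agent.N801.PF.Base

set_option autoImplicit false

open Finset

namespace Pool.Agent.N218.PF

open Pool.Agent.N801.PF

theorem fac_bounds {H y j p : ℕ} (hj : j ≤ H) (hp : p ∈ prs H y) :
    0 ≤ 1 - (j : ℝ) / p ∧ 1 - (j : ℝ) / p ≤ 1 ∧ 0 < (p : ℝ) ∧ (j : ℝ) / p ≤ 1 := by
  rw [mem_prs] at hp
  have h1 : (j : ℝ) < p := by exact_mod_cast (by omega : j < p)
  have h2 : (0 : ℝ) ≤ j := by positivity
  have h3 : (0 : ℝ) < p := by linarith
  have h4 : (j : ℝ) / p ≤ 1 := by rw [div_le_one h3]; exact h1.le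
  have h5 : 0 ≤ (j : ℝ) / p := by positivity
  exact ⟨by linarith, by linarith, h3, h4⟩

/-- telescoping: `∑_{H < n ≤ y} 1 / n ^ 2 ≤ 1 / H` -/
theorem sum_sq_le (H : ℕ) (hH : 1 ≤ H) (y : ℕ) :
    ∑ p ∈ prs H y, 1 / (p : ℝ) ^ 2 ≤ 1 / (H : ℝ) := by
  have h1 : ∀ y : ℕ, H ≤ y → ∑ n ∈ Ioc H y, 1 / (n : ℝ) ^ 2 ≤ 1 / (H : ℝ) - 1 / (y : ℝ) := by
    intro y hy
    induction y, hy using Nat.le_induction with
    | base => simp
    | succ n hn ih =>
      rw [Finset.sum_Ioc_succ_top (by omega)]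
      have hn0 : (0 : ℝ) < n := by exact_mod_cast (by omega : 0 < n)
      have : 1 / (((n + 1 : ℕ) : ℝ)) ^ 2 ≤ 1 / (n : ℝ) - 1 / ((n + 1 : ℕ) : ℝ) := by
        push_cast
        rw [div_sub_div _ _ (by positivity) (by positivity), div_le_div_iff₀ (by positivity)
          (by positivity)]
        nlinarith
      linarith
  have h2 : ∑ p ∈ prs H y, 1 / (p : ℝ) ^ 2 ≤ ∑ n ∈ Ioc H y, 1 / (n : ℝ) ^ 2 := by
    unfold prs
    apply Finset.sum_le_sum_of_subset_of_nonneg (Finset.filter_subset _ _)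
    intro i _ _
    positivity
  rcases le_or_gt H y with h | h
  · have := h1 y h
    have : (0 : ℝ) ≤ 1 / (y : ℝ) := by positivity
    linarith
  · have : Ioc H y = ∅ := Finset.Ioc_eq_empty (by omega)
    rw [this, Finset.sum_empty] at h2
    have : (0 : ℝ) ≤ 1 / (H : ℝ) := by positivity
    linarith

theorem one_fac {H y j p : ℕ} (hj : 2 * j ≤ H) (hp : p ∈ prs H y) :
    (1 - (1 : ℝ) / p) ^ j * Real.exp (-((j : ℝ) ^ 2 * (1 / (p : ℝ) ^ 2))) ≤ 1 - (j : ℝ) / p := by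
  have hp' := hp
  rw [mem_prs] at hp'
  have hp1 : (1 : ℝ) ≤ p := by exact_mod_cast hp'.2.one_lt.le
  have hp0 : (0 : ℝ) < p := by linarith
  set t : ℝ := (j : ℝ) / p with ht
  have ht0 : 0 ≤ t := by positivity
  have ht1 : t ≤ 1 / 2 := by
    rw [ht, div_le_iff₀ hp0]
    have : ((2 * j : ℕ) : ℝ) ≤ (p : ℝ) := by exact_mod_cast (by omega : 2 * j ≤ p)
    push_cast at this
    linarith
  -- `(1 - 1/p)^j ≤ exp(-t)` and `exp(-t - t^2) ≤ 1 - t`
  have h1 : (1 - (1 : ℝ) / p) ^ j ≤ Real.exp (-t) := by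
    have h2 : 1 - (1 : ℝ) / p ≤ Real.exp (-(1 / p)) := by
      have := Real.add_one_le_exp (-(1 / (p : ℝ)))
      linarith
    have h3 : 0 ≤ 1 - (1 : ℝ) / p := by
      rw [sub_nonneg, div_le_one hp0]; exact hp1
    calc (1 - (1 : ℝ) / p) ^ j ≤ Real.exp (-(1 / p)) ^ j := pow_le_pow_left₀ h3 h2 j
      _ = Real.exp (-t) := by
        rw [← Real.exp_nat_mul, ht]
        congr 1
        ring
  have h4 : Real.exp (-t) * Real.exp (-(t ^ 2)) ≤ 1 - t := by
    rw [← Real.exp_add, ← neg_add, Real.exp_neg, inv_le_comm₀ (Real.exp_pos _) (by linarith)]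
    -- `1/(1-t) ≤ exp (t + t^2)`
    have h5 : 1 + (t + t ^ 2) + (t + t ^ 2) ^ 2 / 2 ≤ Real.exp (t + t ^ 2) :=
      Real.quadratic_le_exp_of_nonneg (by positivity)
    refine le_trans ?_ h5
    rw [inv_le_iff_one_le_mul₀ (by linarith)]
    nlinarith [mul_nonneg ht0 ht0, mul_nonneg (mul_nonneg ht0 ht0) ht0,
      mul_nonneg (mul_nonneg ht0 ht0) (sub_nonneg.2 ht1),
      mul_nonneg (mul_nonneg (mul_nonneg ht0 ht0) ht0) (sub_nonneg.2 ht1),
      mul_nonneg (mul_nonneg (mul_nonneg (mul_nonneg ht0 ht0) ht0) ht0) (sub_nonneg.2 ht1)]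
  have e : (j : ℝ) ^ 2 * (1 / (p : ℝ) ^ 2) = t ^ 2 := by
    rw [ht, div_pow]; ring
  rw [e]
  calc _ ≤ Real.exp (-t) * Real.exp (-(t ^ 2)) := by gcongr
    _ ≤ _ := h4

/-- (PJ) -/
theorem pj_bounds : PJ := by
  intro H y j hH hj
  have hf := fun p (hp : p ∈ prs H y) => fac_bounds (y := y) hj hp
  refine ⟨?_, ?_, ?_, ?_⟩
  · unfold pj
    exact Finset.prod_nonneg fun p hp => (hf p hp).1
  · unfold pj
    exact Finset.prod_le_one (fun p hp => (hf p hp).1) (fun p hp => (hf p hp).2.1)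
  · unfold pj
    rw [← Finset.prod_pow]
    apply Finset.prod_le_prod (fun p hp => (hf p hp).1)
    intro p hp
    have h1 := fac_bounds (H := H) (y := y) (j := 1) hH hp
    have h2 := one_add_mul_le_pow (a := -((1 : ℕ) : ℝ) / p) (by
      have := h1.2.2.2
      have h3 : -((1 : ℕ) : ℝ) / p = - (((1 : ℕ) : ℝ) / p) := by ring
      rw [h3]
      linarith) j
    have e1 : 1 - (j : ℝ) / p = 1 + (j : ℝ) * (-((1 : ℕ) : ℝ) / p) := by push_cast; ring
    have e2 : 1 - ((1 : ℕ) : ℝ) / p = 1 + (-((1 : ℕ) : ℝ) / p) := by ring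
    rw [e1, e2]
    exact h2
  · intro h2j
    have hH0 : (0 : ℝ) < H := by exact_mod_cast hH
    have h1 : pj H y 1 ^ j * Real.exp (-((j : ℝ) ^ 2 * ∑ p ∈ prs H y, 1 / (p : ℝ) ^ 2)) ≤
        pj H y j := by
      unfold pj
      rw [← Finset.prod_pow, Finset.mul_sum, ← Finset.sum_neg_distrib, Real.exp_sum,
        ← Finset.prod_mul_distrib]
      apply Finset.prod_le_prod
      · intro p hp
        have := (fac_bounds (H := H) (y := y) (j := 1) hH hp).1
        exact mul_nonneg (pow_nonneg this _) (Real.exp_pos _).le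
      · intro p hp
        have := one_fac h2j hp
        simpa using this
    have h2 : 1 - (j : ℝ) ^ 2 / H ≤
        Real.exp (-((j : ℝ) ^ 2 * ∑ p ∈ prs H y, 1 / (p : ℝ) ^ 2)) := by
      have h3 := sum_sq_le H hH y
      have h4 := Real.add_one_le_exp (-((j : ℝ) ^ 2 / H))
      refine le_trans (by linarith) (Real.exp_le_exp.2 (?_ : -((j : ℝ) ^ 2 / H) ≤ _))
      rw [neg_le_neg_iff, div_eq_mul_one_div]
      gcongr
    have h3 : 0 ≤ pj H y 1 ^ j := by
      apply pow_nonneg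
      unfold pj
      exact Finset.prod_nonneg fun p hp => (fac_bounds (H := H) (y := y) (j := 1) hH hp).1
    calc (1 - (j : ℝ) ^ 2 / H) * pj H y 1 ^ j ≤
        Real.exp (-((j : ℝ) ^ 2 * ∑ p ∈ prs H y, 1 / (p : ℝ) ^ 2)) * pj H y 1 ^ j := by gcongr
      _ = _ := mul_comm _ _
      _ ≤ _ := h1

/-- (AV) -/
theorem av : AV := by
  intro W H hW
  have h1 : ∑ b ∈ range W, ((Icc 1 H).filter (fun h => (b + h).Coprime W)).card =
      ∑ h ∈ Icc 1 H, ((range W).filter (fun b => (b + h).Coprime W)).card := by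
    simp only [Finset.card_filter]
    rw [Finset.sum_comm]
  rw [h1]
  have h2 : ∀ h ∈ Icc 1 H, ((range W).filter (fun b => (b + h).Coprime W)).card = Nat.totient W := by
    intro h _
    have h3 := Nat.filter_coprime_Ico_eq_totient W h
    rw [← h3]
    apply Finset.card_bij (fun b _ => b + h)
    · intro b hb
      rw [mem_filter, mem_range] at hb
      rw [mem_filter, mem_Ico]
      exact ⟨by omega, Nat.coprime_comm.1 hb.2⟩
    · intro a _ b _ hab
      simpa using hab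
    · intro c hc
      rw [mem_filter, mem_Ico] at hc
      refine ⟨c - h, ?_, by omega⟩
      rw [mem_filter, mem_range]
      refine ⟨by omega, ?_⟩
      rw [Nat.sub_add_cancel hc.1.1]
      exact Nat.coprime_comm.1 hc.2
  rw [Finset.sum_congr rfl h2, Finset.sum_const, Nat.card_Icc]
  simp

end Pool.Agent.N218.PF
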