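import Pool.Agent.N801.PF.Base

set_option autoImplicit false

open Finset

namespace Pool.Agent.N218.PF

open Pool.Agent.N801.PF

/-- (PU) -/
theorem pu : PU := by
  intro ι _ _ R om θ X hR hθ hX
  have h1R : (1 : ℕ) ∉ R := fun h => absurd (hR 1 h).1 (lt_irrefl 1)
  set g : ℕ → ℝ := fun x => if x = 1 then 1 else om x * (x : ℝ) ^ θ with hg
  have hg0 : ∀ x ∈ insert 1 R, 0 ≤ g x := by
    intro x hx
    simp only [hg]
    split_ifs with h
    · norm_num
    · rcases mem_insert.1 hx with h1 | h1
      · exact absurd h1 h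
      · exact mul_nonneg (hR x h1).2 (by positivity)
  have key : ∀ r : ι → ℕ, Wt om r * ((mm r : ℕ) : ℝ) ^ θ = ∏ i, g (r i) := by
    intro r
    unfold Wt mm
    push_cast
    rw [← Real.finsetProd_rpow _ _ (fun i _ => by positivity), ← Finset.prod_mul_distrib]
    apply Finset.prod_congr rfl
    intro i _
    simp only [hg]
    split_ifs with h
    · rw [h]; simp
    · rfl
  have step : ∀ r ∈ (Fintype.piFinset (fun _ : ι => insert 1 R)).filter (fun r => X ≤ (mm r : ℝ)),
      Wt om r ≤ X ^ (-θ) * ∏ i, g (r i) := by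
    intro r hr
    rw [mem_filter, Fintype.mem_piFinset] at hr
    obtain ⟨h1, h2⟩ := hr
    have hW : 0 ≤ Wt om r := by
      unfold Wt
      apply Finset.prod_nonneg
      intro i _
      split_ifs with h
      · norm_num
      · rcases mem_insert.1 (h1 i) with h3 | h3
        · exact absurd h3 h
        · exact (hR _ h3).2
    rw [← key r]
    have h3 : 1 ≤ X ^ (-θ) * ((mm r : ℕ) : ℝ) ^ θ := by
      rw [Real.rpow_neg hX.le, ← div_eq_inv_mul, le_div_iff₀ (Real.rpow_pos_of_pos hX _), one_mul]
      exact Real.rpow_le_rpow hX.le h2 hθ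
    calc Wt om r = Wt om r * 1 := (mul_one _).symm
      _ ≤ Wt om r * (X ^ (-θ) * ((mm r : ℕ) : ℝ) ^ θ) := by gcongr
      _ = _ := by ring
  calc _ ≤ ∑ r ∈ (Fintype.piFinset (fun _ : ι => insert 1 R)).filter (fun r => X ≤ (mm r : ℝ)),
        X ^ (-θ) * ∏ i, g (r i) := Finset.sum_le_sum step
    _ ≤ ∑ r ∈ Fintype.piFinset (fun _ : ι => insert 1 R), X ^ (-θ) * ∏ i, g (r i) := by
        apply Finset.sum_le_sum_of_subset_of_nonneg (Finset.filter_subset _ _)
        intro r hr _
        rw [Fintype.mem_piFinset] at hr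
        exact mul_nonneg (Real.rpow_nonneg hX.le _) (Finset.prod_nonneg fun i _ => hg0 _ (hr i))
    _ = X ^ (-θ) * (1 + ∑ ρ ∈ R, om ρ * (ρ : ℝ) ^ θ) ^ Fintype.card ι := by
        rw [← Finset.mul_sum, sum_piFinset_prod (fun _ => insert 1 R) (fun _ => g),
          Finset.prod_const, Finset.card_univ, Finset.sum_insert h1R]
        have e1 : g 1 = 1 := by simp [hg]
        have e2 : ∑ x ∈ R, g x = ∑ ρ ∈ R, om ρ * (ρ : ℝ) ^ θ := by
          apply Finset.sum_congr rfl
          intro ρ hρ
          simp only [hg]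
          rw [if_neg (by have := (hR ρ hρ).1; omega)]
        rw [e1, e2]
    _ ≤ _ := by
        apply mul_le_mul_of_nonneg_left _ (Real.rpow_nonneg hX.le _)
        set S := ∑ ρ ∈ R, om ρ * (ρ : ℝ) ^ θ with hS
        have hS0 : 0 ≤ S := Finset.sum_nonneg fun ρ hρ => mul_nonneg (hR ρ hρ).2 (by positivity)
        calc (1 + S) ^ Fintype.card ι ≤ (Real.exp S) ^ Fintype.card ι := by
              apply pow_le_pow_left₀ (by positivity)
              rw [add_comm]
              exact Real.add_one_le_exp S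
          _ = _ := by rw [← Real.exp_nat_mul]

end Pool.Agent.N218.PF
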